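import Mathlib

set_option autoImplicit false

/-!
# Betrothed pairs of even numbers: the power of two dividing the members
-/

namespace Pool.Agent.Results.MP_3c2bbf_nt.EvenPairs

open Finset
open scoped ArithmeticFunction.sigma

/-- `(m, n)` is a betrothed pair: positive integers with `σ(m) = σ(n) = m + n + 1`. -/
def IsBetrothed (m n : ℕ) : Prop :=
  0 < m ∧ 0 < n ∧ σ 1 m = m + n + 1 ∧ σ 1 n = m + n + 1

/-- the denominator of the prime `p` in state `j` -/
def den (m p j : ℕ) : ℕ :=
  if j = 0 then 1 else if j = 1 then p else σ 1 (p ^ m.factorization p)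

/-- the numerator of the prime `p` in state `j` -/
def num (m p j : ℕ) : ℕ :=
  if j = 0 then 1 else if j = 1 then p - 1 else p ^ m.factorization p

/-- what has to be large in state `j` -/
def cost (m p j : ℕ) : ℕ := if j = 0 then p else p ^ (m.factorization p + 1)

theorem den_one (m p : ℕ) : den m p 1 = p := by simp [den]

theorem num_one (m p : ℕ) : num m p 1 = p - 1 := by simp [num]

theorem cost_one (m p : ℕ) : cost m p 1 = p ^ (m.factorization p + 1) := by simp [cost]

def X (m : ℕ) (s : ℕ → ℕ) : ℕ := ∏ p ∈ m.primeFactors, den m p (s p)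

def A (m : ℕ) (s : ℕ → ℕ) : ℕ := ∏ p ∈ m.primeFactors, num m p (s p)

theorem sigma_prod (m : ℕ) (hm : m ≠ 0) :
    σ 1 m = ∏ p ∈ m.primeFactors, σ 1 (p ^ m.factorization p) := by
  rw [ArithmeticFunction.IsMultiplicative.multiplicative_factorization _
    ArithmeticFunction.isMultiplicative_sigma hm]
  rfl

theorem self_prod (m : ℕ) (hm : m ≠ 0) : m = ∏ p ∈ m.primeFactors, p ^ m.factorization p := by
  conv_lhs => rw [← Nat.prod_factorization_pow_eq_self hm]
  rfl

theorem geom {p : ℕ} (hp : p.Prime) (e : ℕ) :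
    (σ 1 (p ^ e) : ℝ) * ((p : ℝ) - 1) = (p : ℝ) ^ (e + 1) - 1 := by
  rw [ArithmeticFunction.sigma_one_apply_prime_pow hp]
  push_cast
  exact geom_sum_mul (p : ℝ) (e + 1)

theorem le_sigma {a : ℕ} (ha : a ≠ 0) : a ≤ σ 1 a := by
  rw [ArithmeticFunction.sigma_one_apply]
  exact Finset.single_le_sum (f := fun d => d) (fun _ _ => Nat.zero_le _)
    (Nat.mem_divisors_self a ha)

theorem den_pos {m p j : ℕ} (hp : p.Prime) : 0 < den m p j := by
  unfold den
  split_ifs
  · norm_num
  · exact hp.pos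
  · exact lt_of_lt_of_le (pow_pos hp.pos _) (le_sigma (pow_ne_zero _ hp.ne_zero))

theorem X_pos (m : ℕ) (s : ℕ → ℕ) : 0 < X m s :=
  Finset.prod_pos fun _ hp => den_pos (Nat.prime_of_mem_primeFactors hp)

/-- one prime, first inequality -/
theorem one_a {m p j : ℕ} {B : ℝ} (hB : 1 ≤ B) (hp : p.Prime) (hj : j < 2 → B ≤ cost m p j) :
    (p : ℝ) ^ m.factorization p * den m p j * (if j < 2 then 1 - 1 / B else 1) ≤
      num m p j * σ 1 (p ^ m.factorization p) := by
  set e := m.factorization p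
  have hB0 : 0 < B := by linarith
  have hg := geom hp e
  have hp1 : (1 : ℝ) ≤ p := by exact_mod_cast hp.one_le
  have hu1 : 1 - 1 / B ≤ 1 := by
    have : 0 < 1 / B := by positivity
    linarith
  have hsig : (p : ℝ) ^ e ≤ σ 1 (p ^ e) := by
    have := le_sigma (a := p ^ e) (pow_ne_zero _ hp.ne_zero)
    exact_mod_cast this
  rcases Nat.lt_or_ge j 2 with h | h
  · rw [if_pos h]
    have hc := hj h
    interval_cases j
    · simp only [den, num, if_true, Nat.cast_one, mul_one, one_mul]
      calc (p : ℝ) ^ e * (1 - 1 / B) ≤ (p : ℝ) ^ e * 1 := by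
            apply mul_le_mul_of_nonneg_left hu1 (by positivity)
        _ ≤ _ := by rw [mul_one]; exact hsig
    · rw [den_one, num_one]
      rw [cost_one] at hc
      push_cast [Nat.cast_sub hp.one_le] at hc ⊢
      have h1 : (p : ℝ) ^ e * p * (1 - 1 / B) = (p : ℝ) ^ (e + 1) - (p : ℝ) ^ (e + 1) / B := by
        rw [pow_succ]; ring
      have h2 : 1 ≤ (p : ℝ) ^ (e + 1) / B := by
        rw [le_div_iff₀ hB0]; linarith
      rw [h1]
      nlinarith
  · rw [if_neg (by omega), mul_one]
    simp only [den, num]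
    rw [if_neg (by omega), if_neg (by omega), if_neg (by omega), if_neg (by omega)]
    push_cast
    exact le_refl _

/-- one prime, second inequality -/
theorem one_b {m p j : ℕ} {B : ℝ} (hB : 1 ≤ B) (hp : p.Prime) (hj : j < 2 → B ≤ cost m p j) :
    (num m p j : ℝ) * σ 1 (p ^ m.factorization p) * (if j < 2 then 1 - 1 / B else 1) ≤
      (p : ℝ) ^ m.factorization p * den m p j := by
  set e := m.factorization p
  have hB0 : 0 < B := by linarith
  have hg := geom hp e
  have hp1 : (1 : ℝ) ≤ p := by exact_mod_cast hp.one_le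
  have hp0 : (0 : ℝ) < p := by linarith
  have hu1 : 1 - 1 / B ≤ 1 := by
    have : 0 < 1 / B := by positivity
    linarith
  have hu0 : 0 ≤ 1 - 1 / B := by
    have : 1 / B ≤ 1 := by rw [div_le_one hB0]; exact hB
    linarith
  have hs0 : (0 : ℝ) ≤ σ 1 (p ^ e) := by positivity
  rcases Nat.lt_or_ge j 2 with h | h
  · rw [if_pos h]
    have hc := hj h
    interval_cases j
    · simp only [den, num, cost, if_true, Nat.cast_one, mul_one, one_mul] at *
      have h1 : 1 - 1 / B ≤ 1 - 1 / (p : ℝ) := by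
        have : 1 / (p : ℝ) ≤ 1 / B := one_div_le_one_div_of_le hB0 hc
        linarith
      calc (σ 1 (p ^ e) : ℝ) * (1 - 1 / B) ≤ σ 1 (p ^ e) * (1 - 1 / (p : ℝ)) :=
            mul_le_mul_of_nonneg_left h1 hs0
        _ = (σ 1 (p ^ e) * ((p : ℝ) - 1)) / p := by field_simp
        _ = ((p : ℝ) ^ (e + 1) - 1) / p := by rw [hg]
        _ ≤ (p : ℝ) ^ (e + 1) / p := by
            apply div_le_div_of_nonneg_right _ hp0.le
            linarith
        _ = (p : ℝ) ^ e := by rw [pow_succ]; field_simp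
    · rw [den_one, num_one]
      push_cast [Nat.cast_sub hp.one_le]
      have h3 : ((p : ℝ) - 1) * σ 1 (p ^ e) = (p : ℝ) ^ (e + 1) - 1 := by rw [← hg]; ring
      rw [h3]
      have h4 : (1 : ℝ) ≤ (p : ℝ) ^ (e + 1) := one_le_pow₀ hp1
      calc ((p : ℝ) ^ (e + 1) - 1) * (1 - 1 / B) ≤ ((p : ℝ) ^ (e + 1) - 1) * 1 :=
            mul_le_mul_of_nonneg_left hu1 (by linarith)
        _ ≤ (p : ℝ) ^ e * p := by rw [pow_succ]; linarith
  · rw [if_neg (by omega), mul_one]
    simp only [den, num]
    rw [if_neg (by omega), if_neg (by omega), if_neg (by omega), if_neg (by omega)]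
    push_cast
    exact le_refl _

theorem prod_ite {m K : ℕ} {s : ℕ → ℕ} {u : ℝ} (hu0 : 0 ≤ u) (hu1 : u ≤ 1) (hs : s 2 = 2)
    (hK : (m.primeFactors.erase 2).card ≤ K) :
    u ^ K ≤ ∏ p ∈ m.primeFactors, (if s p < 2 then u else 1) := by
  rw [Finset.prod_ite, Finset.prod_const, Finset.prod_const_one, mul_one]
  apply pow_le_pow_of_le_one hu0 hu1
  refine le_trans (Finset.card_le_card ?_) hK
  intro p hp
  rw [Finset.mem_filter] at hp
  rw [Finset.mem_erase]
  refine ⟨?_, hp.1⟩
  rintro rfl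
  omega

theorem side_a {m K : ℕ} {s : ℕ → ℕ} {B : ℝ} (hm : m ≠ 0) (hB : 1 ≤ B) (hs : s 2 = 2)
    (hK : (m.primeFactors.erase 2).card ≤ K)
    (hc : ∀ p ∈ m.primeFactors, s p < 2 → B ≤ cost m p (s p)) :
    (m : ℝ) * X m s * (1 - 1 / B) ^ K ≤ A m s * σ 1 m := by
  have hB0 : 0 < B := by linarith
  have hu1 : 1 - 1 / B ≤ 1 := by
    have : 0 < 1 / B := by positivity
    linarith
  have hu0 : 0 ≤ 1 - 1 / B := by
    have : 1 / B ≤ 1 := by rw [div_le_one hB0]; exact hB
    linarith
  have h1 : (m : ℝ) = ∏ p ∈ m.primeFactors, (p : ℝ) ^ m.factorization p := by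
    have := self_prod m hm
    conv_lhs => rw [this]
    push_cast
    rfl
  have h2 : (σ 1 m : ℝ) = ∏ p ∈ m.primeFactors, (σ 1 (p ^ m.factorization p) : ℝ) := by
    rw [sigma_prod m hm]
    push_cast
    rfl
  calc (m : ℝ) * X m s * (1 - 1 / B) ^ K
      ≤ (m : ℝ) * X m s * ∏ p ∈ m.primeFactors, (if s p < 2 then 1 - 1 / B else 1) :=
        mul_le_mul_of_nonneg_left (prod_ite hu0 hu1 hs hK) (by positivity)
    _ = ∏ p ∈ m.primeFactors, ((p : ℝ) ^ m.factorization p * den m p (s p) *
          (if s p < 2 then 1 - 1 / B else 1)) := by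
        rw [Finset.prod_mul_distrib, Finset.prod_mul_distrib, ← h1, X]
        push_cast
        rfl
    _ ≤ ∏ p ∈ m.primeFactors, ((num m p (s p) : ℝ) * σ 1 (p ^ m.factorization p)) := by
        apply Finset.prod_le_prod
        · intro p _
          have : (0 : ℝ) ≤ (if s p < 2 then 1 - 1 / B else 1) := by
            split_ifs
            · exact hu0
            · norm_num
          positivity
        · intro p hp
          exact one_a hB (Nat.prime_of_mem_primeFactors hp) (hc p hp)
    _ = A m s * σ 1 m := by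
        rw [Finset.prod_mul_distrib, ← h2, A]
        push_cast
        rfl

theorem side_b {m K : ℕ} {s : ℕ → ℕ} {B : ℝ} (hm : m ≠ 0) (hB : 1 ≤ B) (hs : s 2 = 2)
    (hK : (m.primeFactors.erase 2).card ≤ K)
    (hc : ∀ p ∈ m.primeFactors, s p < 2 → B ≤ cost m p (s p)) :
    (A m s : ℝ) * σ 1 m * (1 - 1 / B) ^ K ≤ m * X m s := by
  have hB0 : 0 < B := by linarith
  have hu1 : 1 - 1 / B ≤ 1 := by
    have : 0 < 1 / B := by positivity
    linarith
  have hu0 : 0 ≤ 1 - 1 / B := by
    have : 1 / B ≤ 1 := by rw [div_le_one hB0]; exact hB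
    linarith
  have h1 : (m : ℝ) = ∏ p ∈ m.primeFactors, (p : ℝ) ^ m.factorization p := by
    have := self_prod m hm
    conv_lhs => rw [this]
    push_cast
    rfl
  have h2 : (σ 1 m : ℝ) = ∏ p ∈ m.primeFactors, (σ 1 (p ^ m.factorization p) : ℝ) := by
    rw [sigma_prod m hm]
    push_cast
    rfl
  calc (A m s : ℝ) * σ 1 m * (1 - 1 / B) ^ K
      ≤ (A m s : ℝ) * σ 1 m * ∏ p ∈ m.primeFactors, (if s p < 2 then 1 - 1 / B else 1) :=
        mul_le_mul_of_nonneg_left (prod_ite hu0 hu1 hs hK) (by positivity)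
    _ = ∏ p ∈ m.primeFactors, ((num m p (s p) : ℝ) * σ 1 (p ^ m.factorization p) *
          (if s p < 2 then 1 - 1 / B else 1)) := by
        rw [Finset.prod_mul_distrib, Finset.prod_mul_distrib, ← h2, A]
        push_cast
        rfl
    _ ≤ ∏ p ∈ m.primeFactors, ((p : ℝ) ^ m.factorization p * den m p (s p)) := by
        apply Finset.prod_le_prod
        · intro p _
          have : (0 : ℝ) ≤ (if s p < 2 then 1 - 1 / B else 1) := by
            split_ifs
            · exact hu0
            · norm_num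
          positivity
        · intro p hp
          exact one_b hB (Nat.prime_of_mem_primeFactors hp) (hc p hp)
    _ = m * X m s := by
        rw [Finset.prod_mul_distrib, ← h1, X]
        push_cast
        rfl

theorem X_odd {m : ℕ} {s : ℕ → ℕ} (hm : m ≠ 0) (hs : s 2 = 2) (hσ : σ 1 m % 2 = 1) :
    X m s % 2 = 1 := by
  rw [← Nat.odd_iff] at hσ ⊢
  rw [sigma_prod m hm] at hσ
  have h1 : ∀ p ∈ m.primeFactors, Odd (σ 1 (p ^ m.factorization p)) := by
    intro p hp
    exact hσ.of_dvd_nat (Finset.dvd_prod_of_mem _ hp)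
  apply Finset.prod_induction _ Odd (fun a b ha hb => ha.mul hb) odd_one
  intro p hp
  have hpp := Nat.prime_of_mem_primeFactors hp
  unfold den
  split_ifs with h2 h3
  · exact odd_one
  · rcases hpp.eq_two_or_odd' with h | h
    · subst h; omega
    · exact h
  · exact h1 p hp

theorem A_even {m : ℕ} {s : ℕ → ℕ} (hm : m ≠ 0) (hs : s 2 = 2) (he : 2 ∣ m) :
    2 ∣ A m s := by
  have h2 : 2 ∈ m.primeFactors := Nat.mem_primeFactors.2 ⟨Nat.prime_two, he, hm⟩
  have h3 : num m 2 (s 2) ∣ A m s := Finset.dvd_prod_of_mem (fun p => num m p (s p)) h2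
  refine dvd_trans ?_ h3
  rw [hs]
  unfold num
  rw [if_neg (by norm_num), if_neg (by norm_num)]
  apply dvd_pow_self
  have := (Nat.prime_two.dvd_iff_one_le_factorization hm).1 he
  omega

/-- The main step. -/
theorem step {m n k : ℕ} {s t : ℕ → ℕ} (h : IsBetrothed m n) (hm2 : 2 ∣ m) (hn2 : 2 ∣ n)
    (hs : s 2 = 2) (ht : t 2 = 2)
    (hk1 : (m.primeFactors.erase 2).card ≤ k) (hk2 : (n.primeFactors.erase 2).card ≤ k) :
    m + n + 1 ≤ 2 * (k + 1) * (X m s * X n t) ∨
    (∃ p ∈ m.primeFactors, s p < 2 ∧ cost m p (s p) ≤ 2 * (k + 1) * (X m s * X n t)) ∨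
    (∃ p ∈ n.primeFactors, t p < 2 ∧ cost n p (t p) ≤ 2 * (k + 1) * (X m s * X n t)) := by
  obtain ⟨hm, hn, h1, h2⟩ := h
  have hm0 : m ≠ 0 := by omega
  have hn0 : n ≠ 0 := by omega
  by_contra hcon
  push Not at hcon
  obtain ⟨hc1, hc2, hc3⟩ := hcon
  have hX := X_pos m s
  have hY := X_pos n t
  have hXo := X_odd (s := s) hm0 hs (by omega)
  have hYo := X_odd (s := t) hn0 ht (by omega)
  have hAe := A_even (s := s) hm0 hs hm2
  have hBe := A_even (s := t) hn0 ht hn2
  have hDo : (X m s * X n t) % 2 = 1 := by rw [Nat.mul_mod, hXo, hYo]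
  have hEe : (A m s * X n t + A n t * X m s) % 2 = 0 :=
    Nat.mod_eq_zero_of_dvd (dvd_add (hAe.mul_right _) (hBe.mul_right _))
  set D : ℕ := X m s * X n t with hD
  set E : ℕ := A m s * X n t + A n t * X m s with hE
  have hD1 : 1 ≤ D := Nat.mul_pos hX hY
  set B : ℝ := 2 * (k + 1) * D with hB
  have hD1' : (1 : ℝ) ≤ D := by exact_mod_cast hD1
  have hk0 : (0 : ℝ) ≤ k := by positivity
  have hB2 : 2 ≤ B := by rw [hB]; nlinarith
  have hB1 : 1 ≤ B := by linarith
  have hB0 : 0 < B := by linarith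
  have hBn : B = ((2 * (k + 1) * D : ℕ) : ℝ) := by rw [hB]; push_cast; ring
  have hS : B ≤ (m : ℝ) + n + 1 := by
    rw [hBn]
    exact_mod_cast hc1.le
  have hcm : ∀ p ∈ m.primeFactors, s p < 2 → B ≤ cost m p (s p) := by
    intro p hp hsp
    rw [hBn]
    exact_mod_cast (hc2 p hp hsp).le
  have hcn : ∀ p ∈ n.primeFactors, t p < 2 → B ≤ cost n p (t p) := by
    intro p hp hsp
    rw [hBn]
    exact_mod_cast (hc3 p hp hsp).le
  have a1 := side_a hm0 hB1 hs hk1 hcm
  have a2 := side_a hn0 hB1 ht hk2 hcn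
  have b1 := side_b hm0 hB1 hs hk1 hcm
  have b2 := side_b hn0 hB1 ht hk2 hcn
  rw [h1] at a1 b1
  rw [h2] at a2 b2
  set u : ℝ := (1 - 1 / B) ^ k with hu
  have hu1 : 1 - 1 / B ≤ 1 := by
    have : 0 < 1 / B := by positivity
    linarith
  have hu0 : 0 ≤ 1 - 1 / B := by
    have : 1 / B ≤ 1 := by rw [div_le_one hB0]; exact hB1
    linarith
  have hbern : 1 - k / B ≤ u := by
    have := one_add_mul_le_pow (a := -(1 / B)) (by linarith) k
    rw [hu]
    calc 1 - k / B = 1 + k * -(1 / B) := by ring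
      _ ≤ (1 + -(1 / B)) ^ k := this
      _ = (1 - 1 / B) ^ k := by ring
  set S : ℝ := (m : ℝ) + n + 1 with hSdef
  have hS0 : 0 < S := by rw [hSdef]; positivity
  push_cast at a1 a2 b1 b2
  rw [← hSdef] at a1 a2 b1 b2
  have hXr : (0 : ℝ) < X m s := by exact_mod_cast hX
  have hYr : (0 : ℝ) < X n t := by exact_mod_cast hY
  have hDr : (D : ℝ) = (X m s : ℝ) * X n t := by rw [hD]; push_cast; ring
  have hEr : (E : ℝ) = (A m s : ℝ) * X n t + A n t * X m s := by rw [hE]; push_cast; ring
  have up : (S - 1) * D * u ≤ E * S := by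
    have e1 := mul_le_mul_of_nonneg_right a1 hYr.le
    have e2 := mul_le_mul_of_nonneg_right a2 hXr.le
    rw [hDr, hEr]
    have e3 : (S - 1) = (m : ℝ) + n := by rw [hSdef]; ring
    rw [e3]
    nlinarith [e1, e2]
  have lo : E * S * u ≤ (S - 1) * D := by
    have e1 := mul_le_mul_of_nonneg_right b1 hYr.le
    have e2 := mul_le_mul_of_nonneg_right b2 hXr.le
    rw [hDr, hEr]
    have e3 : (S - 1) = (m : ℝ) + n := by rw [hSdef]; ring
    rw [e3]
    nlinarith [e1, e2]
  have hDB : (D : ℝ) / B * (2 * (k + 1)) = 1 := by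
    rw [hB]
    field_simp
  have hDB0 : 0 < (D : ℝ) / B := by positivity
  have hne : E ≠ D := by omega
  rcases lt_or_gt_of_ne hne with hlt | hgt
  · have hE1 : (E : ℝ) + 1 ≤ D := by exact_mod_cast hlt
    -- `(1 - 1/B) ≤ (S-1)/S`
    have e1 : S * (1 - 1 / B) ≤ S - 1 := by
      have : 1 ≤ S / B := by rw [le_div_iff₀ hB0]; linarith
      calc S * (1 - 1 / B) = S - S / B := by ring
        _ ≤ S - 1 := by linarith
    have e2 : S * ((1 - 1 / B) * D * (1 - k / B)) ≤ S * (D - 1) := by
      by_cases hneg : 0 ≤ 1 - k / B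
      · calc S * ((1 - 1 / B) * D * (1 - k / B)) = (S * (1 - 1 / B)) * D * (1 - k / B) := by ring
          _ ≤ (S - 1) * D * (1 - k / B) := by gcongr
          _ ≤ (S - 1) * D * u := by
            apply mul_le_mul_of_nonneg_left hbern
            have : (0 : ℝ) ≤ S - 1 := by rw [hSdef]; ring_nf; positivity
            positivity
          _ ≤ E * S := up
          _ ≤ (D - 1) * S := by
            apply mul_le_mul_of_nonneg_right _ hS0.le
            linarith
          _ = S * (D - 1) := by ring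
      · push Not at hneg
        have : S * ((1 - 1 / B) * D * (1 - k / B)) ≤ 0 := by
          apply mul_nonpos_of_nonneg_of_nonpos hS0.le
          apply mul_nonpos_of_nonneg_of_nonpos _ hneg.le
          positivity
        have h5 : 0 ≤ S * ((D : ℝ) - 1) := by
          apply mul_nonneg hS0.le
          linarith
        linarith
    have e3 := le_of_mul_le_mul_left e2 hS0
    have e4 : (1 - 1 / B) * D * (1 - k / B) = D - D / B * (k + 1) + D / B * (k / B) := by
      field_simp
      ring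
    have e5 : 0 ≤ (D : ℝ) / B * (k / B) := by positivity
    have e6 : (D : ℝ) / B * (k + 1) = 1 / 2 := by linarith
    linarith
  · have hE1 : (D : ℝ) + 1 ≤ E := by exact_mod_cast hgt
    have hkB : (k : ℝ) / B ≤ 1 := by
      rw [div_le_one hB0, hB]
      nlinarith
    have e1 : S * ((D + 1) * (1 - k / B)) < S * D := by
      calc S * ((D + 1) * (1 - k / B)) ≤ S * (E * u) := by
            apply mul_le_mul_of_nonneg_left _ hS0.le
            apply mul_le_mul hE1 hbern (by linarith) (by positivity)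
        _ = E * S * u := by ring
        _ ≤ (S - 1) * D := lo
        _ < S * D := by nlinarith
    have e2 := lt_of_mul_lt_mul_left e1 hS0.le
    have e3 : (D + 1) * (1 - k / B) = (D : ℝ) + 1 - (D / B + 1 / B) * k := by
      ring
    have e4 : 1 / B ≤ (D : ℝ) / B := by gcongr
    have e5 : (D / B + 1 / B) * k ≤ (D : ℝ) / B * (2 * k) := by nlinarith
    nlinarith

theorem X_update {m q : ℕ} {s : ℕ → ℕ} (hq : q ∈ m.primeFactors) {B : ℕ}
    (hs : s q < 2) (hc : cost m q (s q) ≤ B) :
    X m (Function.update s q (s q + 1)) ≤ X m s * B := by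
  have hpp := Nat.prime_of_mem_primeFactors hq
  unfold X
  rw [← Finset.mul_prod_erase _ _ hq, ← Finset.mul_prod_erase _ (fun p => den m p (s p)) hq]
  rw [Function.update_self]
  have h1 : ∏ p ∈ m.primeFactors.erase q, den m p (Function.update s q (s q + 1) p) =
      ∏ p ∈ m.primeFactors.erase q, den m p (s p) := by
    apply Finset.prod_congr rfl
    intro p hp
    rw [Function.update_of_ne (Finset.ne_of_mem_erase hp)]
  rw [h1]
  have h2 : den m q (s q + 1) ≤ B := by
    refine le_trans ?_ hc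
    unfold den cost
    interval_cases h : s q
    · simp
    · simp only [Nat.reduceAdd, OfNat.ofNat_ne_zero, OfNat.ofNat_ne_one, if_false, one_ne_zero]
      have hg := geom hpp (m.factorization q)
      have hq2 : (2 : ℝ) ≤ q := by exact_mod_cast hpp.two_le
      have h3 : (σ 1 (q ^ m.factorization q) : ℝ) ≤ (q : ℝ) ^ (m.factorization q + 1) := by
        have h4 : (0 : ℝ) ≤ σ 1 (q ^ m.factorization q) := by positivity
        nlinarith
      exact_mod_cast h3
  have h3 : 1 ≤ den m q (s q) := den_pos hpp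
  calc den m q (s q + 1) * ∏ p ∈ m.primeFactors.erase q, den m p (s p)
      ≤ B * ∏ p ∈ m.primeFactors.erase q, den m p (s p) := Nat.mul_le_mul_right _ h2
    _ ≤ B * (den m q (s q) * ∏ p ∈ m.primeFactors.erase q, den m p (s p)) :=
        Nat.mul_le_mul_left _ (Nat.le_mul_of_pos_left _ h3)
    _ = _ := by ring

def meas (m : ℕ) (s : ℕ → ℕ) : ℕ := ∑ p ∈ m.primeFactors, (2 - s p)

theorem meas_update {m q : ℕ} {s : ℕ → ℕ} (hq : q ∈ m.primeFactors) (hs : s q < 2) :
    meas m (Function.update s q (s q + 1)) + 1 = meas m s := by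
  unfold meas
  rw [← Finset.add_sum_erase _ _ hq, ← Finset.add_sum_erase _ (fun p => 2 - s p) hq]
  rw [Function.update_self]
  have h1 : ∑ p ∈ m.primeFactors.erase q, (2 - Function.update s q (s q + 1) p) =
      ∑ p ∈ m.primeFactors.erase q, (2 - s p) := by
    apply Finset.sum_congr rfl
    intro p hp
    rw [Function.update_of_ne (Finset.ne_of_mem_erase hp)]
  rw [h1]
  omega

theorem main {m n k : ℕ} (h : IsBetrothed m n) (hm2 : 2 ∣ m) (hn2 : 2 ∣ n)
    (hk1 : (m.primeFactors.erase 2).card ≤ k) (hk2 : (n.primeFactors.erase 2).card ≤ k) (r : ℕ) :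
    ∀ s t : ℕ → ℕ, s 2 = 2 → t 2 = 2 → meas m s + meas n t = r →
      m + n + 1 ≤ (2 * (k + 1) * (X m s * X n t)) ^ (2 ^ r) := by
  induction r with
  | zero =>
    intro s t hs ht hr
    rcases step h hm2 hn2 hs ht hk1 hk2 with h1 | ⟨p, hp, h1, -⟩ | ⟨p, hp, h1, -⟩
    · simpa using h1
    · have := meas_update hp h1
      omega
    · have := meas_update hp h1
      omega
  | succ r ih =>
    intro s t hs ht hr
    have hX := X_pos m s
    have hY := X_pos n t
    set B := 2 * (k + 1) * (X m s * X n t) with hB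
    have hBp : 0 < B := by positivity
    rcases step h hm2 hn2 hs ht hk1 hk2 with h1 | ⟨p, hp, h1, h2⟩ | ⟨p, hp, h1, h2⟩
    · exact h1.trans (Nat.le_self_pow (by positivity) B)
    · have e1 := meas_update hp h1
      have e2 := X_update hp h1 h2
      have hp2 : p ≠ 2 := by rintro rfl; omega
      have e3 := ih (Function.update s p (s p + 1)) t
        (by rw [Function.update_of_ne (Ne.symm hp2)]; exact hs) ht (by omega)
      refine e3.trans ?_
      rw [pow_succ 2 r, mul_comm (2 ^ r) 2, pow_mul]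
      apply Nat.pow_le_pow_left
      calc 2 * (k + 1) * (X m (Function.update s p (s p + 1)) * X n t)
          ≤ 2 * (k + 1) * ((X m s * B) * X n t) := by gcongr
        _ = B * (2 * (k + 1) * (X m s * X n t)) := by ring
        _ = B ^ 2 := by rw [← hB, sq]
    · have e1 := meas_update hp h1
      have e2 := X_update hp h1 h2
      have hp2 : p ≠ 2 := by rintro rfl; omega
      have e3 := ih s (Function.update t p (t p + 1)) hs
        (by rw [Function.update_of_ne (Ne.symm hp2)]; exact ht) (by omega)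
      refine e3.trans ?_
      rw [pow_succ 2 r, mul_comm (2 ^ r) 2, pow_mul]
      apply Nat.pow_le_pow_left
      calc 2 * (k + 1) * (X m s * X n (Function.update t p (t p + 1)))
          ≤ 2 * (k + 1) * (X m s * (X n t * B)) := by gcongr
        _ = B * (2 * (k + 1) * (X m s * X n t)) := by ring
        _ = B ^ 2 := by rw [← hB, sq]

/-- the initial state: only the prime `2` is touched -/
def s0 (p : ℕ) : ℕ := if p = 2 then 2 else 0

theorem X_s0 {m : ℕ} (hm : m ≠ 0) (h2 : 2 ∣ m) : X m s0 = 2 ^ (m.factorization 2 + 1) - 1 := by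
  have h3 : 2 ∈ m.primeFactors := Nat.mem_primeFactors.2 ⟨Nat.prime_two, h2, hm⟩
  unfold X
  rw [← Finset.mul_prod_erase _ _ h3]
  have h4 : ∏ p ∈ m.primeFactors.erase 2, den m p (s0 p) = 1 := by
    apply Finset.prod_eq_one
    intro p hp
    have : p ≠ 2 := Finset.ne_of_mem_erase hp
    simp [den, s0, this]
  rw [h4, mul_one]
  have h5 : den m 2 (s0 2) = σ 1 (2 ^ m.factorization 2) := by simp [den, s0]
  rw [h5, ArithmeticFunction.sigma_one_apply_prime_pow Nat.prime_two]
  have := Nat.geomSum_eq (le_refl 2) (m.factorization 2 + 1)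
  rw [this]
  simp

theorem meas_s0 {m : ℕ} : meas m s0 ≤ 2 * (m.primeFactors.erase 2).card := by
  unfold meas
  by_cases h3 : 2 ∈ m.primeFactors
  · rw [← Finset.add_sum_erase _ _ h3]
    have h4 : ∑ p ∈ m.primeFactors.erase 2, (2 - s0 p) =
        ∑ p ∈ m.primeFactors.erase 2, 2 := by
      apply Finset.sum_congr rfl
      intro p hp
      have : p ≠ 2 := Finset.ne_of_mem_erase hp
      simp [s0, this]
    rw [h4, Finset.sum_const, smul_eq_mul]
    simp [s0]
    omega
  · rw [Finset.erase_eq_of_notMem h3]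
    calc ∑ p ∈ m.primeFactors, (2 - s0 p) ≤ ∑ p ∈ m.primeFactors, 2 :=
          Finset.sum_le_sum fun _ _ => Nat.sub_le _ _
      _ = _ := by rw [Finset.sum_const, smul_eq_mul, mul_comm]

/-- Let `(m, n)` be a betrothed pair of even numbers, `2^v ∥ m`, `2^w ∥ n`, and let `a`, `b` be the
numbers of odd primes dividing `m`, `n`.  Then
`m + n + 1 ≤ (2 (a + b + 1) (2^(v+1) - 1) (2^(w+1) - 1)) ^ (4 ^ (a + b))`. -/
theorem result (m n : ℕ) (h : IsBetrothed m n) (hm : Even m) (hn : Even n) (k : ℕ)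
    (hk : (m.primeFactors.erase 2).card + (n.primeFactors.erase 2).card ≤ k) :
    m + n + 1 ≤ (2 * (k + 1) * ((2 ^ (padicValNat 2 m + 1) - 1) *
      (2 ^ (padicValNat 2 n + 1) - 1))) ^ (4 ^ k) := by
  have hm2 : 2 ∣ m := hm.two_dvd
  have hn2 : 2 ∣ n := hn.two_dvd
  have hm0 : m ≠ 0 := by have := h.1; omega
  have hn0 : n ≠ 0 := by have := h.2.1; omega
  have h1 := main h hm2 hn2 (k := k) (by omega) (by omega) _ s0 s0 rfl rfl rfl
  rw [X_s0 hm0 hm2, X_s0 hn0 hn2, Nat.factorization_def m Nat.prime_two,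
    Nat.factorization_def n Nat.prime_two] at h1
  refine h1.trans ?_
  apply Nat.pow_le_pow_right
  · have e1 : 2 ≤ 2 ^ (padicValNat 2 m + 1) := Nat.le_self_pow (by omega) 2
    have e2 : 2 ≤ 2 ^ (padicValNat 2 n + 1) := Nat.le_self_pow (by omega) 2
    have e3 : 0 < 2 ^ (padicValNat 2 m + 1) - 1 := by omega
    have e4 : 0 < 2 ^ (padicValNat 2 n + 1) - 1 := by omega
    positivity
  · have e1 := meas_s0 (m := m)
    have e2 := meas_s0 (m := n)
    calc 2 ^ (meas m s0 + meas n s0) ≤ 2 ^ (2 * k) := Nat.pow_le_pow_right (by norm_num) (by omega)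
      _ = 4 ^ k := by rw [pow_mul]; norm_num

end Pool.Agent.Results.MP_3c2bbf_nt.EvenPairs
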