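import Mathlib

set_option autoImplicit false

/-!
# Betrothed pairs of equal parity: a bound in terms of the number of prime factors
-/

namespace Pool.Agent.Results.MP_3c2bbf_nt.PrimeFactorCount

open Finset
open scoped ArithmeticFunction.sigma ArithmeticFunction.Omega

/-- `(m, n)` is a betrothed pair: positive integers with `σ(m) = σ(n) = m + n + 1`. -/
def IsBetrothed (m n : ℕ) : Prop :=
  0 < m ∧ 0 < n ∧ σ 1 m = m + n + 1 ∧ σ 1 n = m + n + 1

theorem sigma_mul {a b : ℕ} (h : a.Coprime b) : σ 1 (a * b) = σ 1 a * σ 1 b :=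
  ArithmeticFunction.isMultiplicative_sigma.map_mul_of_coprime h

theorem sigma_pp {p k : ℕ} (hp : p.Prime) :
    σ 1 (p ^ (k + 1)) = σ 1 (p ^ k) + p ^ (k + 1) := by
  rw [ArithmeticFunction.sigma_one_apply_prime_pow hp,
    ArithmeticFunction.sigma_one_apply_prime_pow hp, Finset.sum_range_succ _ (k + 1)]

theorem sigma_pp' {p k : ℕ} (hp : p.Prime) :
    σ 1 (p ^ (k + 1)) = 1 + p * σ 1 (p ^ k) := by
  rw [ArithmeticFunction.sigma_one_apply_prime_pow hp,
    ArithmeticFunction.sigma_one_apply_prime_pow hp, Finset.sum_range_succ', Finset.mul_sum]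
  simp only [pow_zero, pow_succ]
  rw [add_comm]
  congr 1
  apply Finset.sum_congr rfl
  intro i _
  ring

theorem le_sigma {a : ℕ} (ha : a ≠ 0) : a ≤ σ 1 a := by
  rw [ArithmeticFunction.sigma_one_apply]
  exact Finset.single_le_sum (f := fun d => d) (fun _ _ => Nat.zero_le _)
    (Nat.mem_divisors_self a ha)

/-- `σ(a) ≤ 2^Ω(a) a` -/
theorem sigma_le (a : ℕ) (ha : a ≠ 0) : σ 1 a ≤ 2 ^ (Ω a) * a := by
  induction a using Nat.recOnPosPrimePosCoprime with
  | prime_pow p k hp hk =>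
    rw [ArithmeticFunction.cardFactors_apply_prime_pow hp]
    clear ha hk
    induction k with
    | zero => simp
    | succ k ih =>
      rw [sigma_pp hp]
      have h1 : p ^ k ≤ p ^ (k + 1) := Nat.pow_le_pow_right hp.pos (by omega)
      have h2 : 1 ≤ 2 ^ k := Nat.one_le_two_pow
      calc σ 1 (p ^ k) + p ^ (k + 1) ≤ 2 ^ k * p ^ k + p ^ (k + 1) := by omega
        _ ≤ 2 ^ k * p ^ (k + 1) + 2 ^ k * p ^ (k + 1) := by
          apply Nat.add_le_add
          · exact Nat.mul_le_mul_left _ h1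
          · exact Nat.le_mul_of_pos_left _ (by omega)
        _ = 2 ^ (k + 1) * p ^ (k + 1) := by rw [pow_succ 2 k]; ring
  | zero => exact absurd rfl ha
  | one => simp
  | coprime a b h1 h2 h3 h4 h5 =>
    have ha' : a ≠ 0 := by omega
    have hb' : b ≠ 0 := by omega
    rw [sigma_mul h3, ArithmeticFunction.cardFactors_mul ha' hb', pow_add]
    calc σ 1 a * σ 1 b ≤ (2 ^ (Ω a) * a) * (2 ^ (Ω b) * b) := Nat.mul_le_mul (h4 ha') (h5 hb')
      _ = _ := by ring

/-- if all primes dividing `x` are at least `q` then `σ(x) - x` is at most `(Ω(x)/q) σ(x)` -/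
theorem rough_le (q : ℕ) (x : ℕ) (hx : x ≠ 0) (hq : ∀ p : ℕ, p.Prime → p ∣ x → q ≤ p) :
    q * σ 1 x ≤ q * x + Ω x * σ 1 x := by
  induction x using Nat.recOnPosPrimePosCoprime with
  | prime_pow p k hp hk =>
    rw [ArithmeticFunction.cardFactors_apply_prime_pow hp]
    obtain ⟨j, rfl⟩ : ∃ j, k = j + 1 := ⟨k - 1, by omega⟩
    have h1 : q ≤ p := hq p hp (dvd_pow_self p (by omega))
    have h2 := sigma_pp (k := j) hp
    have h3 := sigma_pp' (k := j) hp
    have h4 : q * σ 1 (p ^ j) ≤ p * σ 1 (p ^ j) := Nat.mul_le_mul_right _ h1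
    have h5 : σ 1 (p ^ (j + 1)) ≤ (j + 1) * σ 1 (p ^ (j + 1)) := by nlinarith
    calc q * σ 1 (p ^ (j + 1)) = q * p ^ (j + 1) + q * σ 1 (p ^ j) := by rw [h2]; ring
      _ ≤ q * p ^ (j + 1) + (j + 1) * σ 1 (p ^ (j + 1)) := by omega
  | zero => exact absurd rfl hx
  | one => simp
  | coprime a b h1 h2 h3 h4 h5 =>
    have ha' : a ≠ 0 := by omega
    have hb' : b ≠ 0 := by omega
    have h6 := h4 ha' (fun p hp hd => hq p hp (hd.mul_right b))
    have h7 := h5 hb' (fun p hp hd => hq p hp (hd.mul_left a))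
    rw [sigma_mul h3, ArithmeticFunction.cardFactors_mul ha' hb']
    have h8 := le_sigma ha'
    have h9 : q * (σ 1 a * σ 1 b) ≤ (q * a + Ω a * σ 1 a) * σ 1 b := by
      calc q * (σ 1 a * σ 1 b) = (q * σ 1 a) * σ 1 b := by ring
        _ ≤ _ := Nat.mul_le_mul_right _ h6
    have h10 : a * (q * σ 1 b) ≤ a * (q * b + Ω b * σ 1 b) := Nat.mul_le_mul_left _ h7
    have h11 : a * (Ω b * σ 1 b) ≤ σ 1 a * (Ω b * σ 1 b) := Nat.mul_le_mul_right _ h8
    nlinarith

/-- the part of `m` composed of the primes below `t` -/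
def sp (t m : ℕ) : ℕ := ∏ p ∈ Finset.range t, p ^ m.factorization p

theorem sp_zero (m : ℕ) : sp 0 m = 1 := by simp [sp]

theorem sp_succ (t m : ℕ) : sp (t + 1) m = sp t m * t ^ m.factorization t := by
  simp [sp, Finset.prod_range_succ]

theorem fac_pow_ne (m p : ℕ) : p ^ m.factorization p ≠ 0 := by
  by_cases h : p = 0
  · subst h; simp
  · exact pow_ne_zero _ h

theorem sp_ne (t m : ℕ) : sp t m ≠ 0 := Finset.prod_ne_zero_iff.2 fun p _ => fac_pow_ne m p

theorem sp_fac (t m r : ℕ) : (sp t m).factorization r = if r < t then m.factorization r else 0 := by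
  induction t with
  | zero => simp [sp_zero]
  | succ t ih =>
    rw [sp_succ, Nat.factorization_mul (sp_ne t m) (fac_pow_ne m t), Finsupp.add_apply, ih,
      Nat.factorization_pow, Finsupp.smul_apply, smul_eq_mul]
    by_cases ht : t.Prime
    · rw [ht.factorization]
      rcases lt_trichotomy r t with h | h | h
      · rw [if_pos h, if_pos (by omega), Finsupp.single_apply, if_neg (by omega)]; simp
      · subst h
        rw [if_neg (by omega), if_pos (by omega), Finsupp.single_apply, if_pos rfl]; simp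
      · rw [if_neg (by omega), if_neg (by omega), Finsupp.single_apply, if_neg (by omega)]; simp
    · have h0 : m.factorization t = 0 := Nat.factorization_eq_zero_of_not_prime m ht
      rw [h0]
      rcases lt_trichotomy r t with h | h | h
      · rw [if_pos h, if_pos (by omega)]; simp
      · subst h
        rw [if_neg (by omega), if_pos (by omega), h0]; simp
      · rw [if_neg (by omega), if_neg (by omega)]; simp

theorem sp_dvd (t m : ℕ) (hm : m ≠ 0) : sp t m ∣ m := by
  rw [← Nat.factorization_le_iff_dvd (sp_ne t m) hm]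
  intro r
  rw [sp_fac]
  split_ifs <;> simp

theorem sp_all (t m : ℕ) (hm : m ≠ 0) (ht : m < t) : sp t m = m := by
  apply Nat.eq_of_factorization_eq (sp_ne t m) hm
  intro r
  rw [sp_fac]
  split_ifs with h
  · rfl
  · rw [Nat.factorization_eq_zero_of_lt (by omega)]

/-- the splitting of `m` at `t` -/
theorem split (t m : ℕ) (hm : m ≠ 0) : ∃ x : ℕ, x ≠ 0 ∧ m = sp t m * x ∧ (sp t m).Coprime x ∧
    ∀ p : ℕ, p.Prime → p ∣ x → t ≤ p := by
  obtain ⟨x, hx⟩ := sp_dvd t m hm
  have hx0 : x ≠ 0 := by rintro rfl; exact hm (by simpa using hx)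
  have hfac : ∀ r : ℕ, m.factorization r = (sp t m).factorization r + x.factorization r := by
    intro r
    conv_lhs => rw [hx]
    rw [Nat.factorization_mul (sp_ne t m) hx0]; rfl
  have hr : ∀ p : ℕ, p.Prime → p ∣ x → t ≤ p := by
    intro p hp hd
    by_contra h
    have h1 := hfac p
    rw [sp_fac, if_pos (by omega)] at h1
    have h2 := (hp.dvd_iff_one_le_factorization hx0).1 hd
    omega
  refine ⟨x, hx0, hx, ?_, hr⟩
  rw [Nat.coprime_iff_gcd_eq_one]
  by_contra hg
  obtain ⟨p, hp, hd⟩ := Nat.exists_prime_and_dvd hg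
  have h1 := hr p hp (hd.trans (Nat.gcd_dvd_right _ _))
  have h2 := (hp.dvd_iff_one_le_factorization (sp_ne t m)).1 (hd.trans (Nat.gcd_dvd_left _ _))
  rw [sp_fac, if_neg (by omega)] at h2
  omega

theorem sp_parity {m q : ℕ} (hm : m ≠ 0) (hq : 2 < q) : sp q m % 2 = m % 2 := by
  obtain ⟨x, hx0, hx, -, hr⟩ := split q m hm
  have hodd : x % 2 = 1 := by
    by_contra h
    have h2 : 2 ∣ x := by omega
    have := hr 2 Nat.prime_two h2
    omega
  conv_rhs => rw [hx]
  rw [Nat.mul_mod, hodd]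
  omega

theorem sp_two (m : ℕ) : sp 2 m = 1 := by
  simp [sp, Finset.prod_range_succ]

/-- The step: the next prime factor is small compared with the part of `mn` below it. -/
theorem step {m n K q : ℕ} (hmn : IsBetrothed m n) (hpar : m % 2 = n % 2)
    (hK : Ω m + Ω n ≤ K) (hq : q.Prime) (hd : q ∣ m * n) :
    q ≤ 2 ^ K * (sp q m * sp q n) := by
  obtain ⟨hm, hn, h1, h2⟩ := hmn
  have hm0 : m ≠ 0 := by omega
  have hn0 : n ≠ 0 := by omega
  obtain ⟨x, hx0, hx, hcx, hrx⟩ := split q m hm0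
  obtain ⟨y, hy0, hy, hcy, hry⟩ := split q n hn0
  set a := sp q m with ha
  set b := sp q n with hb
  have ha0 : a ≠ 0 := sp_ne q m
  have hb0 : b ≠ 0 := sp_ne q n
  set S := m + n + 1 with hS
  have hSm : σ 1 a * σ 1 x = S := by rw [← sigma_mul hcx, ← hx, h1]
  have hSn : σ 1 b * σ 1 y = S := by rw [← sigma_mul hcy, ← hy, h2]
  have hOm : Ω m = Ω a + Ω x := by
    conv_lhs => rw [hx]
    exact ArithmeticFunction.cardFactors_mul ha0 hx0
  have hOn : Ω n = Ω b + Ω y := by
    conv_lhs => rw [hy]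
    exact ArithmeticFunction.cardFactors_mul hb0 hy0
  have hax := rough_le q x hx0 hrx
  have hby := rough_le q y hy0 hry
  have hxs := le_sigma hx0
  have hys := le_sigma hy0
  have has := le_sigma ha0
  have hbs := le_sigma hb0
  have hsa := sigma_le a ha0
  have hsb := sigma_le b hb0
  -- parity
  have hSodd : S % 2 = 1 := by omega
  have hsa_odd : σ 1 a % 2 = 1 := by
    by_contra h
    have h' : σ 1 a % 2 = 0 := by omega
    have : (σ 1 a * σ 1 x) % 2 = 0 := by rw [Nat.mul_mod, h']; simp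
    omega
  have hsb_odd : σ 1 b % 2 = 1 := by
    by_contra h
    have h' : σ 1 b % 2 = 0 := by omega
    have : (σ 1 b * σ 1 y) % 2 = 0 := by rw [Nat.mul_mod, h']; simp
    omega
  have hab : a % 2 = b % 2 := by
    rcases hq.eq_two_or_odd' with h | h
    · subst h
      rw [ha, hb, sp_two, sp_two]
    · have hq2 : 2 < q := by
        have := hq.two_le
        obtain ⟨c, hc⟩ := h
        omega
      rw [ha, hb, sp_parity hm0 hq2, sp_parity hn0 hq2, hpar]
  have hne : σ 1 a * σ 1 b ≠ a * σ 1 b + b * σ 1 a := by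
    intro h
    have e1 : (σ 1 a * σ 1 b) % 2 = 1 := by rw [Nat.mul_mod, hsa_odd, hsb_odd]
    have e2 : (a * σ 1 b) % 2 = a % 2 := by rw [Nat.mul_mod, hsb_odd]; omega
    have e3 : (b * σ 1 a) % 2 = b % 2 := by rw [Nat.mul_mod, hsa_odd]; omega
    omega
  have hSe : S = a * x + b * y + 1 := by
    rw [hS, ← hx, ← hy]
  have hprod : σ 1 a * σ 1 b ≤ 2 ^ (Ω a + Ω b) * (a * b) := by
    calc σ 1 a * σ 1 b ≤ (2 ^ (Ω a) * a) * (2 ^ (Ω b) * b) := Nat.mul_le_mul hsa hsb
      _ = _ := by rw [pow_add]; ring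
  have hSpos : 0 < S := by omega
  rcases lt_or_gt_of_ne hne with hlt | hgt
  · -- `σ(a)σ(b) < a σ(b) + b σ(a)`
    have hlt' : σ 1 a * σ 1 b + 1 ≤ a * σ 1 b + b * σ 1 a := hlt
    have key : q * S ≤ (Ω x * (a * σ 1 b) + Ω y * (b * σ 1 a)) * S := by
      have e1 : (a * σ 1 b) * σ 1 a * (q * σ 1 x) ≤
          (a * σ 1 b) * σ 1 a * (q * x + Ω x * σ 1 x) := Nat.mul_le_mul_left _ hax
      have e2 : (b * σ 1 a) * σ 1 b * (q * σ 1 y) ≤
          (b * σ 1 a) * σ 1 b * (q * y + Ω y * σ 1 y) := Nat.mul_le_mul_left _ hby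
      have e3 : (a * σ 1 b) * σ 1 a * (q * σ 1 x) = (a * σ 1 b) * q * S := by
        rw [← hSm]; ring
      have e4 : (b * σ 1 a) * σ 1 b * (q * σ 1 y) = (b * σ 1 a) * q * S := by
        rw [← hSn]; ring
      have e5 : (a * σ 1 b) * σ 1 a * (q * x + Ω x * σ 1 x) =
          σ 1 a * σ 1 b * q * (a * x) + Ω x * (a * σ 1 b) * S := by
        rw [← hSm]; ring
      have e6 : (b * σ 1 a) * σ 1 b * (q * y + Ω y * σ 1 y) =
          σ 1 a * σ 1 b * q * (b * y) + Ω y * (b * σ 1 a) * S := by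
        rw [← hSn]; ring
      have e7 : σ 1 a * σ 1 b * q * (a * x) + σ 1 a * σ 1 b * q * (b * y) ≤
          σ 1 a * σ 1 b * q * S := by
        rw [← Nat.mul_add]
        exact Nat.mul_le_mul_left _ (by omega)
      have e8 : (σ 1 a * σ 1 b + 1) * (q * S) ≤ (a * σ 1 b + b * σ 1 a) * (q * S) :=
        Nat.mul_le_mul_right _ hlt'
      have e9 : (σ 1 a * σ 1 b + 1) * (q * S) = σ 1 a * σ 1 b * q * S + q * S := by ring
      have e10 : (a * σ 1 b + b * σ 1 a) * (q * S) =
          (a * σ 1 b) * q * S + (b * σ 1 a) * q * S := by ring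
      have e11 : (Ω x * (a * σ 1 b) + Ω y * (b * σ 1 a)) * S =
          Ω x * (a * σ 1 b) * S + Ω y * (b * σ 1 a) * S := by ring
      omega
    have key2 : q ≤ Ω x * (a * σ 1 b) + Ω y * (b * σ 1 a) :=
      Nat.le_of_mul_le_mul_right key hSpos
    have f1 : a * σ 1 b ≤ σ 1 a * σ 1 b := Nat.mul_le_mul_right _ has
    have f2 : b * σ 1 a ≤ σ 1 a * σ 1 b := by
      rw [Nat.mul_comm (σ 1 a)]; exact Nat.mul_le_mul_right _ hbs
    calc q ≤ Ω x * (a * σ 1 b) + Ω y * (b * σ 1 a) := key2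
      _ ≤ Ω x * (σ 1 a * σ 1 b) + Ω y * (σ 1 a * σ 1 b) :=
        Nat.add_le_add (Nat.mul_le_mul_left _ f1) (Nat.mul_le_mul_left _ f2)
      _ = (Ω x + Ω y) * (σ 1 a * σ 1 b) := by ring
      _ ≤ 2 ^ (Ω x + Ω y) * (2 ^ (Ω a + Ω b) * (a * b)) :=
        Nat.mul_le_mul (Nat.lt_two_pow_self).le hprod
      _ = 2 ^ (Ω x + Ω y + (Ω a + Ω b)) * (a * b) := by rw [pow_add]; ring
      _ ≤ 2 ^ K * (a * b) := by
        apply Nat.mul_le_mul_right
        exact Nat.pow_le_pow_right (by norm_num) (by omega)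
  · -- `a σ(b) + b σ(a) < σ(a)σ(b)`
    have hgt' : a * σ 1 b + b * σ 1 a + 1 ≤ σ 1 a * σ 1 b := hgt
    have hqS : q ≤ S := by
      rcases (hq.dvd_mul).1 hd with h | h
      · have := Nat.le_of_dvd hm h; omega
      · have := Nat.le_of_dvd hn h; omega
    have key : S ≤ σ 1 a * σ 1 b := by
      have e1 : (a * σ 1 b) * σ 1 a * x ≤ (a * σ 1 b) * σ 1 a * σ 1 x := Nat.mul_le_mul_left _ hxs
      have e2 : (b * σ 1 a) * σ 1 b * y ≤ (b * σ 1 a) * σ 1 b * σ 1 y := Nat.mul_le_mul_left _ hys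
      have e3 : (a * σ 1 b) * σ 1 a * σ 1 x = (a * σ 1 b) * S := by rw [← hSm]; ring
      have e4 : (b * σ 1 a) * σ 1 b * σ 1 y = (b * σ 1 a) * S := by rw [← hSn]; ring
      have e5 : σ 1 a * σ 1 b * S = (a * σ 1 b) * σ 1 a * x + (b * σ 1 a) * σ 1 b * y +
          σ 1 a * σ 1 b := by
        conv_lhs => rw [hSe]
        ring
      have e6 : (a * σ 1 b + b * σ 1 a + 1) * S ≤ σ 1 a * σ 1 b * S := Nat.mul_le_mul_right _ hgt'
      have e7 : (a * σ 1 b + b * σ 1 a + 1) * S = (a * σ 1 b) * S + (b * σ 1 a) * S + S := by ring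
      omega
    calc q ≤ S := hqS
      _ ≤ σ 1 a * σ 1 b := key
      _ ≤ 2 ^ (Ω a + Ω b) * (a * b) := hprod
      _ ≤ 2 ^ K * (a * b) := by
        apply Nat.mul_le_mul_right
        exact Nat.pow_le_pow_right (by norm_num) (by omega)

/-- the weight `∏ (1 + v_p(m) + v_p(n))` over `p < t` -/
def wt (t m n : ℕ) : ℕ :=
  ∏ p ∈ Finset.range t, (1 + (m.factorization p + n.factorization p))

theorem grow {m n K : ℕ} (hmn : IsBetrothed m n) (hpar : m % 2 = n % 2)
    (hK : Ω m + Ω n ≤ K) (t : ℕ) : 2 ^ K * (sp t m * sp t n) ≤ (2 ^ K) ^ wt t m n := by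
  induction t with
  | zero => simp [sp_zero, wt]
  | succ t ih =>
    rw [sp_succ, sp_succ, wt, Finset.prod_range_succ, ← wt]
    set e := m.factorization t + n.factorization t with he
    have h1 : 2 ^ K * (sp t m * t ^ m.factorization t * (sp t n * t ^ n.factorization t)) =
        2 ^ K * (sp t m * sp t n) * t ^ e := by rw [he, pow_add]; ring
    rw [h1]
    by_cases h0 : e = 0
    · rw [h0]; simpa using ih
    · have ht : t.Prime ∧ t ∣ m * n := by
        have hor : m.factorization t ≠ 0 ∨ n.factorization t ≠ 0 := by omega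
        rcases hor with h | h
        · have hs : t ∈ m.factorization.support := Finsupp.mem_support_iff.2 h
          rw [Nat.support_factorization, Nat.mem_primeFactors] at hs
          exact ⟨hs.1, hs.2.1.mul_right n⟩
        · have hs : t ∈ n.factorization.support := Finsupp.mem_support_iff.2 h
          rw [Nat.support_factorization, Nat.mem_primeFactors] at hs
          exact ⟨hs.1, hs.2.1.mul_left m⟩
      have h2 := step hmn hpar hK ht.1 ht.2
      calc 2 ^ K * (sp t m * sp t n) * t ^ e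
          ≤ 2 ^ K * (sp t m * sp t n) * (2 ^ K * (sp t m * sp t n)) ^ e :=
            Nat.mul_le_mul_left _ (Nat.pow_le_pow_left h2 e)
        _ = (2 ^ K * (sp t m * sp t n)) ^ (1 + e) := by rw [pow_add _ 1 e, pow_one]
        _ ≤ ((2 ^ K) ^ wt t m n) ^ (1 + e) := Nat.pow_le_pow_left ih _
        _ = (2 ^ K) ^ (wt t m n * (1 + e)) := by rw [← pow_mul]

theorem sq_le_three_pow {e : ℕ} (he : e ≠ 1) : (1 + e) ^ 2 ≤ 3 ^ e := by
  rcases Nat.lt_or_ge e 2 with h | h
  · interval_cases e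
    · norm_num
    · exact absurd rfl he
  · induction e, h using Nat.le_induction with
    | base => norm_num
    | succ e h ih =>
      have := ih (by omega)
      rw [pow_succ 3 e]
      nlinarith

theorem wt_le {m n : ℕ} (h : ∀ p : ℕ, m.factorization p + n.factorization p ≠ 1) (t : ℕ) :
    wt t m n ^ 2 ≤ 3 ^ (∑ p ∈ Finset.range t, (m.factorization p + n.factorization p)) := by
  induction t with
  | zero => simp [wt]
  | succ t ih =>
    rw [wt, Finset.prod_range_succ, ← wt, Finset.sum_range_succ, pow_add, mul_pow]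
    exact Nat.mul_le_mul ih (sq_le_three_pow (h t))

theorem sigma_pp_parity {p : ℕ} (hp : p.Prime) (hp2 : p % 2 = 1) (v : ℕ) :
    σ 1 (p ^ v) % 2 = (v + 1) % 2 := by
  induction v with
  | zero => simp
  | succ v ih =>
    rw [sigma_pp' hp, Nat.add_mod, Nat.mul_mod, hp2, ih]
    omega

theorem even_factorization {m p : ℕ} (hm : m ≠ 0) (hp : p.Prime) (hp2 : p % 2 = 1)
    (hs : σ 1 m % 2 = 1) : m.factorization p % 2 = 0 := by
  have h1 : (p ^ m.factorization p).Coprime (m / p ^ m.factorization p) :=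
    Nat.Coprime.pow_left _ (Nat.coprime_ordCompl hp hm)
  have h2 : p ^ m.factorization p * (m / p ^ m.factorization p) = m :=
    Nat.ordProj_mul_ordCompl_eq_self m p
  have h3 : σ 1 m = σ 1 (p ^ m.factorization p) * σ 1 (m / p ^ m.factorization p) := by
    conv_lhs => rw [← h2]
    exact sigma_mul h1
  have h4 := sigma_pp_parity hp hp2 (m.factorization p)
  by_contra h
  have h5 : σ 1 (p ^ m.factorization p) % 2 = 0 := by omega
  rw [h3, Nat.mul_mod, h5] at hs
  simp at hs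

theorem exponents_ne_one {m n : ℕ} (hmn : IsBetrothed m n) (hpar : m % 2 = n % 2) (p : ℕ) :
    m.factorization p + n.factorization p ≠ 1 := by
  obtain ⟨hm, hn, h1, h2⟩ := hmn
  have hm0 : m ≠ 0 := by omega
  have hn0 : n ≠ 0 := by omega
  by_cases hp : p.Prime
  · rcases hp.eq_two_or_odd with h | h
    · subst h
      have e1 := hp.dvd_iff_one_le_factorization hm0
      have e2 := hp.dvd_iff_one_le_factorization hn0
      intro h3
      have e3 : 2 ∣ m ↔ 2 ∣ n := by omega
      have e4 : 1 ≤ m.factorization 2 ↔ 1 ≤ n.factorization 2 := e1.symm.trans (e3.trans e2)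
      omega
    · have e1 := even_factorization hm0 hp h (by omega)
      have e2 := even_factorization hn0 hp h (by omega)
      omega
  · rw [Nat.factorization_eq_zero_of_not_prime m hp, Nat.factorization_eq_zero_of_not_prime n hp]
    omega

theorem sum_factorization {m t : ℕ} (ht : m < t) :
    ∑ p ∈ Finset.range t, m.factorization p = Ω m := by
  rw [ArithmeticFunction.cardFactors_eq_sum_factorization, Finsupp.sum]
  symm
  apply Finset.sum_subset
  · intro p hp
    rw [Nat.support_factorization, Nat.mem_primeFactors] at hp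
    rw [Finset.mem_range]
    have := Nat.le_of_dvd (Nat.pos_of_ne_zero hp.2.2) hp.2.1
    omega
  · intro p _ hp
    exact Finsupp.notMem_support_iff.1 hp

theorem bound {m n K : ℕ} (hmn : IsBetrothed m n) (hpar : m % 2 = n % 2)
    (hK : Ω m + Ω n ≤ K) : ∃ w : ℕ, w ^ 2 ≤ 3 ^ K ∧ 2 ^ K * (m * n) ≤ 2 ^ (K * w) := by
  have hm0 : m ≠ 0 := by have := hmn.1; omega
  have hn0 : n ≠ 0 := by have := hmn.2.1; omega
  have h1 := grow hmn hpar hK (m + n + 1)
  have h2 := wt_le (exponents_ne_one hmn hpar) (m + n + 1)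
  rw [Finset.sum_add_distrib, sum_factorization (by omega), sum_factorization (by omega)] at h2
  rw [sp_all _ m hm0 (by omega), sp_all _ n hn0 (by omega), ← pow_mul] at h1
  exact ⟨_, h2.trans (Nat.pow_le_pow_right (by norm_num) hK), h1⟩

theorem real_bound {m n K : ℕ} (hmn : IsBetrothed m n) (hpar : Even m ↔ Even n)
    (hK : Ω m + Ω n ≤ K) : (m : ℝ) * n ≤ (2 : ℝ) ^ ((K : ℝ) * (Real.sqrt (3 ^ K) - 1)) := by
  have hp : m % 2 = n % 2 := by
    rw [Nat.even_iff, Nat.even_iff] at hpar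
    omega
  obtain ⟨w, hw, hb⟩ := bound hmn hp hK
  have hw' : (w : ℝ) ≤ Real.sqrt (3 ^ K) := by
    apply Real.le_sqrt_of_sq_le
    exact_mod_cast hw
  have hb' : (2 : ℝ) ^ K * ((m : ℝ) * n) ≤ (2 : ℝ) ^ (K * w) := by exact_mod_cast hb
  have h3 : (2 : ℝ) ^ (K * w) ≤ (2 : ℝ) ^ ((K : ℝ) * Real.sqrt (3 ^ K)) := by
    rw [← Real.rpow_natCast]
    apply Real.rpow_le_rpow_of_exponent_le (by norm_num)
    push_cast
    exact mul_le_mul_of_nonneg_left hw' (Nat.cast_nonneg K)
  have h4 : (2 : ℝ) ^ ((K : ℝ) * (Real.sqrt (3 ^ K) - 1)) =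
      (2 : ℝ) ^ ((K : ℝ) * Real.sqrt (3 ^ K)) / (2 : ℝ) ^ K := by
    rw [mul_sub, mul_one, Real.rpow_sub (by norm_num), Real.rpow_natCast]
  rw [h4, le_div_iff₀ (by positivity)]
  calc (m : ℝ) * n * 2 ^ K = (2 : ℝ) ^ K * ((m : ℝ) * n) := by ring
    _ ≤ _ := hb'.trans h3

/-- If `m, n` form a betrothed pair of equal parity and have together at most `K` prime factors
(counted with multiplicity), then `mn ≤ 2^(K (3^(K/2) - 1))`; so for every `K` there are only
finitely many such pairs. -/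
theorem result :
    (∀ m n K : ℕ, IsBetrothed m n → (Even m ↔ Even n) → Ω m + Ω n ≤ K →
      (m : ℝ) * n ≤ (2 : ℝ) ^ ((K : ℝ) * (Real.sqrt (3 ^ K) - 1))) ∧
    ∀ K : ℕ, {x : ℕ × ℕ | IsBetrothed x.1 x.2 ∧ (Even x.1 ↔ Even x.2) ∧
      Ω x.1 + Ω x.2 ≤ K}.Finite := by
  refine ⟨fun m n K h1 h2 h3 => real_bound h1 h2 h3, fun K => ?_⟩
  apply ((Finset.range (2 ^ (K * 3 ^ K) + 1) ×ˢ Finset.range (2 ^ (K * 3 ^ K) + 1)).finite_toSet).subset
  rintro ⟨m, n⟩ ⟨h1, h2, h3⟩
  have hp : m % 2 = n % 2 := by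
    simp only [Nat.even_iff] at h2
    omega
  obtain ⟨w, hw, hb⟩ := bound h1 hp h3
  have hm := h1.1
  have hn := h1.2.1
  simp only at hm hn h3 hb
  have hw1 : w ≤ 3 ^ K := by nlinarith [Nat.one_le_pow K 3 (by norm_num)]
  have h4 : m * n ≤ 2 ^ (K * 3 ^ K) := by
    calc m * n ≤ 2 ^ K * (m * n) := Nat.le_mul_of_pos_left _ (by positivity)
      _ ≤ 2 ^ (K * w) := hb
      _ ≤ 2 ^ (K * 3 ^ K) := Nat.pow_le_pow_right (by norm_num) (Nat.mul_le_mul_left _ hw1)
  simp only [Finset.coe_product, Set.mem_prod, Finset.mem_coe, Finset.mem_range]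
  constructor
  · have : m ≤ m * n := Nat.le_mul_of_pos_right _ hn
    omega
  · have : n ≤ m * n := Nat.le_mul_of_pos_left _ hm
    omega

end Pool.Agent.Results.MP_3c2bbf_nt.PrimeFactorCount
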