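import Mathlib
import Pool.Agent.H88.Bet.Final

set_option autoImplicit false

/-!
# Betrothed pairs of equal parity are rarer than squares
-/

namespace Pool.Agent.Results.MP_3c2bbf_nt.RareEqualParity

open scoped ArithmeticFunction.sigma

/-- `(m, n)` is a betrothed pair: positive integers with `σ(m) = σ(n) = m + n + 1`. -/
def IsBetrothed (m n : ℕ) : Prop :=
  0 < m ∧ 0 < n ∧ σ 1 m = m + n + 1 ∧ σ 1 n = m + n + 1

/-- `m` is a member of a betrothed pair whose two members have the same parity. -/
def EqualParityMember (m : ℕ) : Prop := ∃ n : ℕ, IsBetrothed m n ∧ (Even m ↔ Even n)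

/-- For all large `x`, at most `√x exp(-(1/3) √(log x log log x))` integers `m ≤ x` are members of
a betrothed pair of equal parity. -/
theorem result : ∃ x0 : ℝ, ∀ x : ℝ, x0 ≤ x →
    ({m : ℕ | (m : ℝ) ≤ x ∧ EqualParityMember m}.ncard : ℝ) ≤
      Real.sqrt x * Real.exp (-(1 / 3) * Real.sqrt (Real.log x * Real.log (Real.log x))) :=
  Pool.Agent.H88.Bet.rare

end Pool.Agent.Results.MP_3c2bbf_nt.RareEqualParity
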